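import Mathlib

set_option autoImplicit false

open scoped ENNReal

namespace Pool.Agent.Lib.MP_600649_an

/-- Abel's inequality for a finite sum with nonincreasing nonnegative weights. -/
lemma abel_bound (u : ℕ → ℂ) (w : ℕ → ℝ) (hw : Antitone w) (hw0 : ∀ i, 0 ≤ w i) (B : ℝ) (L : ℕ)
    (hB : ∀ n ≤ L, ‖∑ i ∈ Finset.range n, u i‖ ≤ B) :
    ‖∑ i ∈ Finset.range L, (w i : ℂ) * u i‖ ≤ B * w 0 := by
  have key : ∀ n, ∑ i ∈ Finset.range n, (w i : ℂ) * u i =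
      (w n : ℂ) * (∑ i ∈ Finset.range n, u i) +
      ∑ i ∈ Finset.range n, ((w i - w (i+1) : ℝ) : ℂ) * ∑ j ∈ Finset.range (i+1), u j := by
    intro n
    induction n with
    | zero => simp
    | succ n ih =>
      rw [Finset.sum_range_succ, ih, Finset.sum_range_succ (fun i => ((w i - w (i+1) : ℝ) : ℂ) * ∑ j ∈ Finset.range (i+1), u j),
        Finset.sum_range_succ (fun i => u i) n]
      push_cast
      ring
  rw [key L]
  have h1 : ‖(w L : ℂ) * (∑ i ∈ Finset.range L, u i)‖ ≤ w L * B := by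
    rw [norm_mul, Complex.norm_real, Real.norm_of_nonneg (hw0 L)]
    exact mul_le_mul_of_nonneg_left (hB L le_rfl) (hw0 L)
  have h2 : ‖∑ i ∈ Finset.range L, ((w i - w (i+1) : ℝ) : ℂ) * ∑ j ∈ Finset.range (i+1), u j‖
      ≤ ∑ i ∈ Finset.range L, (w i - w (i+1)) * B := by
    refine (norm_sum_le _ _).trans (Finset.sum_le_sum fun i hi => ?_)
    have hi' : i < L := Finset.mem_range.mp hi
    have hd : 0 ≤ w i - w (i+1) := sub_nonneg.mpr (hw (Nat.le_succ i))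
    rw [norm_mul, Complex.norm_real, Real.norm_of_nonneg hd]
    exact mul_le_mul_of_nonneg_left (hB (i+1) hi') hd
  have h3 : ∑ i ∈ Finset.range L, (w i - w (i+1)) * B = (w 0 - w L) * B := by
    rw [← Finset.sum_mul, Finset.sum_range_sub']
  calc _ ≤ w L * B + ∑ i ∈ Finset.range L, (w i - w (i+1)) * B := (norm_add_le _ _).trans (add_le_add h1 h2)
    _ = B * w 0 := by rw [h3]; ring

/-- A block of consecutive powers in the closed disc. -/
lemma geom_bound (ζ : ℂ) (hζ : ‖ζ‖ ≤ 1) (h1 : ζ ≠ 1) (a n : ℕ) :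
    ‖∑ i ∈ Finset.range n, ζ ^ (a + i)‖ ≤ 2 / ‖1 - ζ‖ := by
  have hne : 1 - ζ ≠ 0 := sub_ne_zero.mpr (Ne.symm h1)
  have hpos : 0 < ‖1 - ζ‖ := norm_pos_iff.mpr hne
  have e : ∑ i ∈ Finset.range n, ζ ^ (a + i) = ζ ^ a * ((1 - ζ ^ n) / (1 - ζ)) := by
    have : (1 - ζ ^ n) / (1 - ζ) = ∑ i ∈ Finset.range n, ζ ^ i := by
      rw [div_eq_iff hne, mul_comm, mul_neg_geom_sum]
    rw [this, Finset.mul_sum]
    exact Finset.sum_congr rfl fun i _ => pow_add ζ a i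
  rw [e, norm_mul, norm_div, norm_pow]
  have h2 : ‖1 - ζ ^ n‖ ≤ 2 := by
    refine (norm_sub_le _ _).trans ?_
    rw [norm_one, norm_pow]
    have := pow_le_one₀ (n := n) (norm_nonneg ζ) hζ
    linarith
  have h3 : ‖ζ‖ ^ a ≤ 1 := pow_le_one₀ (norm_nonneg ζ) hζ
  calc ‖ζ‖ ^ a * (‖1 - ζ ^ n‖ / ‖1 - ζ‖) ≤ 1 * (2 / ‖1 - ζ‖) := by gcongr
    _ = _ := one_mul _

/-- One term of the Fejer polynomial. -/
lemma term_bound (ζ : ℂ) (hζ : ‖ζ‖ ≤ 1) (m k : ℕ) (hk : k ≤ m) :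
    ‖ζ ^ (m - k) - ζ ^ (m + k)‖ ≤ 2 * k * ‖1 - ζ‖ := by
  have e : ζ ^ (m - k) - ζ ^ (m + k) = ζ ^ (m - k) * ((1 - ζ) * ∑ i ∈ Finset.range (2 * k), ζ ^ i) := by
    rw [mul_neg_geom_sum, mul_sub, mul_one, ← pow_add]
    congr 2
    omega
  rw [e, norm_mul, norm_mul, norm_pow]
  have h3 : ‖ζ‖ ^ (m - k) ≤ 1 := pow_le_one₀ (norm_nonneg ζ) hζ
  have h4 : ‖∑ i ∈ Finset.range (2 * k), ζ ^ i‖ ≤ 2 * k := by
    refine (norm_sum_le _ _).trans ?_
    calc ∑ i ∈ Finset.range (2 * k), ‖ζ ^ i‖ ≤ ∑ i ∈ Finset.range (2 * k), (1 : ℝ) := by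
          refine Finset.sum_le_sum fun i _ => ?_
          rw [norm_pow]
          exact pow_le_one₀ (norm_nonneg ζ) hζ
      _ = 2 * k := by simp
  calc ‖ζ‖ ^ (m - k) * (‖1 - ζ‖ * ‖∑ i ∈ Finset.range (2 * k), ζ ^ i‖)
      ≤ 1 * (‖1 - ζ‖ * (2 * k)) := by gcongr
    _ = 2 * k * ‖1 - ζ‖ := by ring

/-- The Fejer polynomial is bounded by 6 on the closed disc. -/
lemma fejer_bound (ζ : ℂ) (hζ : ‖ζ‖ ≤ 1) (m : ℕ) :
    ‖∑ k ∈ Finset.range m, ((((k : ℝ) + 1)⁻¹ : ℝ) : ℂ) * (ζ ^ (m - (k + 1)) - ζ ^ (m + (k + 1)))‖ ≤ 6 := by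
  -- the first M terms
  have head : ∀ M ≤ m, ‖∑ k ∈ Finset.range M, ((((k : ℝ) + 1)⁻¹ : ℝ) : ℂ) *
      (ζ ^ (m - (k + 1)) - ζ ^ (m + (k + 1)))‖ ≤ 2 * M * ‖1 - ζ‖ := by
    intro M hM
    refine (norm_sum_le _ _).trans ?_
    calc ∑ k ∈ Finset.range M, ‖((((k : ℝ) + 1)⁻¹ : ℝ) : ℂ) * (ζ ^ (m - (k + 1)) - ζ ^ (m + (k + 1)))‖
        ≤ ∑ k ∈ Finset.range M, 2 * ‖1 - ζ‖ := by
          refine Finset.sum_le_sum fun k hk => ?_
          have hk' : k < M := Finset.mem_range.mp hk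
          have hkp : (0 : ℝ) < (k : ℝ) + 1 := by positivity
          rw [norm_mul, Complex.norm_real, Real.norm_of_nonneg (inv_nonneg.mpr hkp.le)]
          have := term_bound ζ hζ m (k + 1) (by omega)
          push_cast at this
          calc ((k : ℝ) + 1)⁻¹ * ‖ζ ^ (m - (k + 1)) - ζ ^ (m + (k + 1))‖
              ≤ ((k : ℝ) + 1)⁻¹ * (2 * ((k : ℝ) + 1) * ‖1 - ζ‖) := by gcongr
            _ = 2 * ‖1 - ζ‖ := by field_simp
      _ = 2 * M * ‖1 - ζ‖ := by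
          rw [Finset.sum_const, Finset.card_range, nsmul_eq_mul]; ring
  by_cases hsmall : (m : ℝ) * ‖1 - ζ‖ ≤ 1
  · have := head m le_rfl
    linarith
  · push Not at hsmall
    have h1 : ζ ≠ 1 := by
      rintro rfl
      simp at hsmall
      linarith
    have hpos : 0 < ‖1 - ζ‖ := norm_pos_iff.mpr (sub_ne_zero.mpr (Ne.symm h1))
    set M : ℕ := ⌊1 / ‖1 - ζ‖⌋₊ with hMdef
    have hM1 : (M : ℝ) * ‖1 - ζ‖ ≤ 1 := by
      have : (M : ℝ) ≤ 1 / ‖1 - ζ‖ := Nat.floor_le (by positivity)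
      calc (M : ℝ) * ‖1 - ζ‖ ≤ 1 / ‖1 - ζ‖ * ‖1 - ζ‖ := by gcongr
        _ = 1 := by field_simp
    have hM2 : 1 < ((M : ℝ) + 1) * ‖1 - ζ‖ := by
      have : 1 / ‖1 - ζ‖ < (M : ℝ) + 1 := Nat.lt_floor_add_one _
      calc (1 : ℝ) = 1 / ‖1 - ζ‖ * ‖1 - ζ‖ := by field_simp
        _ < _ := by gcongr
    have hMm : M < m := by
      by_contra hcon
      push Not at hcon
      have : (m : ℝ) ≤ M := by exact_mod_cast hcon
      have : (m : ℝ) * ‖1 - ζ‖ ≤ 1 := (mul_le_mul_of_nonneg_right this hpos.le).trans hM1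
      linarith
    obtain ⟨L, rfl⟩ : ∃ L, m = M + L := ⟨m - M, by omega⟩
    rw [Finset.sum_range_add]
    have t1 := head M (by omega)
    have t2 : ‖∑ k ∈ Finset.range L, ((((↑(M + k) : ℝ) + 1)⁻¹ : ℝ) : ℂ) *
        (ζ ^ (M + L - (M + k + 1)) - ζ ^ (M + L + (M + k + 1)))‖ ≤ 4 := by
      have hab := abel_bound (fun k => ζ ^ (M + L - (M + k + 1)) - ζ ^ (M + L + (M + k + 1)))
        (fun k => ((↑(M + k) : ℝ) + 1)⁻¹)
        (by
          intro i j hij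
          have : (i : ℝ) ≤ j := by exact_mod_cast hij
          have hi : (0 : ℝ) < (↑(M + i) : ℝ) + 1 := by positivity
          refine inv_anti₀ hi ?_
          push_cast
          linarith)
        (fun i => by positivity) (4 / ‖1 - ζ‖) L
        (by
          intro n hn
          rw [Finset.sum_sub_distrib]
          have a1 : ∑ i ∈ Finset.range n, ζ ^ (M + L - (M + i + 1)) =
              ∑ i ∈ Finset.range n, ζ ^ ((L - n) + i) := by
            rw [← Finset.sum_range_reflect]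
            refine Finset.sum_congr rfl fun i hi => ?_
            have : i < n := Finset.mem_range.mp hi
            congr 1
            omega
          have a2 : ∑ i ∈ Finset.range n, ζ ^ (M + L + (M + i + 1)) =
              ∑ i ∈ Finset.range n, ζ ^ ((M + L + M + 1) + i) := by
            refine Finset.sum_congr rfl fun i hi => ?_
            congr 1
            omega
          rw [a1, a2]
          have b1 := geom_bound ζ hζ h1 (L - n) n
          have b2 := geom_bound ζ hζ h1 (M + L + M + 1) n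
          refine (norm_sub_le _ _).trans ?_
          have : 4 / ‖1 - ζ‖ = 2 / ‖1 - ζ‖ + 2 / ‖1 - ζ‖ := by ring
          rw [this]
          exact add_le_add b1 b2)
      refine hab.trans ?_
      have hM3 : (0 : ℝ) < (M : ℝ) + 1 := by positivity
      simp only [add_zero]
      rw [div_mul_eq_mul_div, div_le_iff₀ hpos]
      have : 4 * ((M : ℝ) + 1)⁻¹ * 1 ≤ 4 * ((M : ℝ) + 1)⁻¹ * (((M : ℝ) + 1) * ‖1 - ζ‖) := by
        gcongr
      calc 4 * ((M : ℝ) + 1)⁻¹ = 4 * ((M : ℝ) + 1)⁻¹ * 1 := by ring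
        _ ≤ _ := this
        _ = 4 * ‖1 - ζ‖ := by field_simp
    calc _ ≤ ‖∑ k ∈ Finset.range M, ((((k : ℝ) + 1)⁻¹ : ℝ) : ℂ) *
          (ζ ^ (M + L - (k + 1)) - ζ ^ (M + L + (k + 1)))‖ +
          ‖∑ k ∈ Finset.range L, ((((↑(M + k) : ℝ) + 1)⁻¹ : ℝ) : ℂ) *
        (ζ ^ (M + L - (M + k + 1)) - ζ ^ (M + L + (M + k + 1)))‖ := norm_add_le _ _
      _ ≤ 2 * M * ‖1 - ζ‖ + 4 := add_le_add t1 t2
      _ ≤ 6 := by linarith

/-- Same polynomial, coefficients written as `(m - j)⁻¹`. -/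
lemma fejer_bound' (ζ : ℂ) (hζ : ‖ζ‖ ≤ 1) (m : ℕ) :
    ‖∑ j ∈ Finset.range (2 * m + 1), ((m : ℂ) - j)⁻¹ * ζ ^ j‖ ≤ 6 := by
  have e : ∑ j ∈ Finset.range (2 * m + 1), ((m : ℂ) - j)⁻¹ * ζ ^ j =
      ∑ k ∈ Finset.range m, ((((k : ℝ) + 1)⁻¹ : ℝ) : ℂ) * (ζ ^ (m - (k + 1)) - ζ ^ (m + (k + 1))) := by
    have : 2 * m + 1 = m + (m + 1) := by ring
    rw [this, Finset.sum_range_add, Finset.sum_range_succ']
    simp only [mul_sub]
    rw [Finset.sum_sub_distrib]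
    rw [← Finset.sum_range_reflect (fun j => ((m : ℂ) - j)⁻¹ * ζ ^ j)]
    have e1 : ∑ j ∈ Finset.range m, ((m : ℂ) - ((m - 1 - j : ℕ) : ℂ))⁻¹ * ζ ^ (m - 1 - j) =
        ∑ k ∈ Finset.range m, ((((k : ℝ) + 1)⁻¹ : ℝ) : ℂ) * ζ ^ (m - (k + 1)) := by
      refine Finset.sum_congr rfl fun k hk => ?_
      have hk' : k < m := Finset.mem_range.mp hk
      have h2 : m - 1 - k = m - (k + 1) := by omega
      rw [h2, Nat.cast_sub (by omega)]
      push_cast
      congr 2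
      ring
    have e2 : ∑ k ∈ Finset.range m, ((m : ℂ) - ((m + (k + 1) : ℕ) : ℂ))⁻¹ * ζ ^ (m + (k + 1)) =
        - ∑ k ∈ Finset.range m, ((((k : ℝ) + 1)⁻¹ : ℝ) : ℂ) * ζ ^ (m + (k + 1)) := by
      rw [← Finset.sum_neg_distrib]
      refine Finset.sum_congr rfl fun k hk => ?_
      have : ((m : ℂ) - ((m + (k + 1) : ℕ) : ℂ)) = - ((k : ℂ) + 1) := by push_cast; ring
      rw [this, inv_neg]
      push_cast
      ring
    rw [e1, e2]
    simp
    ring
  rw [e]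
  exact fejer_bound ζ hζ m


/-- Extension of a finite vector by zero. -/
noncomputable def ext {N : ℕ} (y : Fin N → ℂ) (i : ℕ) : ℂ := if h : i < N then y ⟨i, h⟩ else 0

lemma ext_add {N : ℕ} (y y' : Fin N → ℂ) (i : ℕ) : ext (y + y') i = ext y i + ext y' i := by
  unfold ext; split_ifs <;> simp

lemma ext_smul {N : ℕ} (c : ℂ) (y : Fin N → ℂ) (i : ℕ) : ext (c • y) i = c * ext y i := by
  unfold ext; split_ifs <;> simp

lemma ext_of_lt {N : ℕ} (y : Fin N → ℂ) (i : Fin N) : ext y (i : ℕ) = y i := by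
  unfold ext; simp

lemma ext_of_ge {N : ℕ} (y : Fin N → ℂ) {i : ℕ} (h : N ≤ i) : ext y i = 0 := by
  unfold ext; rw [dif_neg (by omega)]

lemma norm_ext_le {N : ℕ} (y : Fin N → ℂ) (i : ℕ) : ‖ext y i‖ ≤ ‖y‖ := by
  unfold ext
  split_ifs with h
  · exact norm_le_pi_norm y ⟨i, h⟩
  · simp

/-- The space of the example: dimension `2m+3`, supremum norm. -/
abbrev V (m : ℕ) : Type := ℂ × (Fin (2 * m + 1) → ℂ) × ℂ

/-- The operator of the example. -/
noncomputable def opLin (m : ℕ) : V m →ₗ[ℂ] V m where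
  toFun v := (0, fun i => (m : ℂ) * v.1 * ((m : ℂ) - ((i : ℕ) : ℂ))⁻¹ + ext v.2.1 ((i : ℕ) + 1),
    (m : ℂ) * ext v.2.1 0 + v.2.2)
  map_add' v w := by
    refine Prod.ext ?_ (Prod.ext ?_ ?_)
    · simp
    · funext i
      simp only [Prod.fst_add, Prod.snd_add, ext_add, Pi.add_apply]
      ring
    · simp only [Prod.snd_add, Prod.fst_add, ext_add]
      ring
  map_smul' c v := by
    refine Prod.ext ?_ (Prod.ext ?_ ?_)
    · simp
    · funext i
      simp only [Prod.smul_fst, Prod.smul_snd, ext_smul, Pi.smul_apply, smul_eq_mul, RingHom.id_apply]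
      ring
    · simp only [Prod.smul_snd, Prod.smul_fst, ext_smul, smul_eq_mul, RingHom.id_apply]
      ring

/-- The operator of the example as a bounded operator. -/
noncomputable def op (m : ℕ) : V m →L[ℂ] V m := LinearMap.toContinuousLinearMap (opLin m)

lemma op_apply (m : ℕ) (v : V m) : op m v =
    ((0 : ℂ), fun i : Fin (2 * m + 1) => (m : ℂ) * v.1 * ((m : ℂ) - ((i : ℕ) : ℂ))⁻¹ + ext v.2.1 ((i : ℕ) + 1),
    (m : ℂ) * ext v.2.1 0 + v.2.2) := rfl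

/-- The coefficients, extended by zero. -/
noncomputable def G (m : ℕ) (j : ℕ) : ℂ := if j < 2 * m + 1 then ((m : ℂ) - (j : ℂ))⁻¹ else 0

lemma op_pow (m k : ℕ) : (op m ^ (k + 1)) ((1 : ℂ), (0 : Fin (2 * m + 1) → ℂ), (0 : ℂ)) =
    ((0 : ℂ), fun i : Fin (2 * m + 1) => (m : ℂ) * G m ((i : ℕ) + k), (m : ℂ) ^ 2 * ∑ j ∈ Finset.range k, G m j) := by
  induction k with
  | zero =>
    rw [zero_add, pow_one, op_apply]
    refine Prod.ext rfl (Prod.ext ?_ ?_)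
    · funext i
      have hi := i.2
      simp [G, ext]
      exact fun h => absurd h (by omega)
    · simp [ext]
  | succ k ih =>
    rw [pow_succ']
    change op m ((op m ^ (k + 1)) ((1 : ℂ), (0 : Fin (2 * m + 1) → ℂ), (0 : ℂ))) = _
    rw [ih, op_apply]
    have hext : ∀ i : ℕ, ext (fun i : Fin (2 * m + 1) => (m : ℂ) * G m ((i : ℕ) + k)) i = (m : ℂ) * G m (i + k) := by
      intro i
      unfold ext
      split_ifs with h
      · rfl
      · unfold G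
        rw [if_neg (by omega), mul_zero]
    refine Prod.ext rfl (Prod.ext ?_ ?_)
    · funext i
      simp only [hext]
      have : (i : ℕ) + 1 + k = (i : ℕ) + (k + 1) := by ring
      rw [this]
      ring
    · simp only [hext]
      rw [Finset.sum_range_succ, zero_add]
      ring

lemma op_pow_norm (m : ℕ) : (m : ℝ) ^ 2 * Real.log (m + 1) ≤ ‖op m ^ (m + 1)‖ := by
  have h1 := (op m ^ (m + 1)).le_opNorm ((1 : ℂ), (0 : Fin (2 * m + 1) → ℂ), (0 : ℂ))
  have h2 : ‖((1 : ℂ), (0 : Fin (2 * m + 1) → ℂ), (0 : ℂ))‖ = 1 := by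
    simp [Prod.norm_def]
  rw [h2, mul_one, op_pow] at h1
  refine le_trans ?_ h1
  have h3 : ∑ j ∈ Finset.range m, G m j = (((harmonic m : ℚ) : ℝ) : ℂ) := by
    rw [← Finset.sum_range_reflect]
    unfold harmonic
    push_cast
    refine Finset.sum_congr rfl fun j hj => ?_
    have hj' : j < m := Finset.mem_range.mp hj
    unfold G
    rw [if_pos (by omega)]
    congr 1
    have : m - 1 - j = m - (j + 1) := by omega
    rw [this, Nat.cast_sub (by omega)]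
    push_cast
    ring
  have h4 : Real.log (m + 1) ≤ ((harmonic m : ℚ) : ℝ) := by
    have := log_add_one_le_harmonic m
    push_cast at this
    exact this
  have h5 : 0 ≤ Real.log ((m : ℝ) + 1) := Real.log_nonneg (by linarith [(Nat.cast_nonneg m : (0 : ℝ) ≤ m)])
  calc (m : ℝ) ^ 2 * Real.log (m + 1) ≤ (m : ℝ) ^ 2 * ((harmonic m : ℚ) : ℝ) := by gcongr
    _ = ‖(m : ℂ) ^ 2 * ∑ j ∈ Finset.range m, G m j‖ := by
        rw [h3, norm_mul, norm_pow, Complex.norm_natCast, Complex.norm_real,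
          Real.norm_of_nonneg (h5.trans h4)]
    _ ≤ _ := (norm_snd_le (((fun i : Fin (2 * m + 1) => (m : ℂ) * G m ((i : ℕ) + m)),
          (m : ℂ) ^ 2 * ∑ j ∈ Finset.range m, G m j) : (Fin (2 * m + 1) → ℂ) × ℂ)).trans
        (norm_snd_le (((0 : ℂ), (fun i : Fin (2 * m + 1) => (m : ℂ) * G m ((i : ℕ) + m)),
          (m : ℂ) ^ 2 * ∑ j ∈ Finset.range m, G m j) : V m))

lemma norm_G_le (m j : ℕ) : ‖G m j‖ ≤ 1 := by
  unfold G
  split_ifs with h
  · rcases lt_trichotomy j m with h1 | h1 | h1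
    · obtain ⟨k, rfl⟩ : ∃ k, m = j + (k + 1) := ⟨m - j - 1, by omega⟩
      have : (((j + (k + 1) : ℕ) : ℂ) - (j : ℂ)) = ((k + 1 : ℕ) : ℂ) := by push_cast; ring
      rw [this, norm_inv, Complex.norm_natCast]
      refine inv_le_one_of_one_le₀ ?_
      push_cast
      linarith [(Nat.cast_nonneg k : (0 : ℝ) ≤ k)]
    · subst h1; simp
    · obtain ⟨k, rfl⟩ : ∃ k, j = m + (k + 1) := ⟨j - m - 1, by omega⟩
      have : ((m : ℂ) - ((m + (k + 1) : ℕ) : ℂ)) = -((k + 1 : ℕ) : ℂ) := by push_cast; ring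
      rw [this, norm_inv, norm_neg, Complex.norm_natCast]
      refine inv_le_one_of_one_le₀ ?_
      push_cast
      linarith [(Nat.cast_nonneg k : (0 : ℝ) ≤ k)]
  · simp

lemma unroll {N : ℕ} (y : Fin N → ℂ) (h : ℕ → ℂ) (ζ : ℂ)
    (H : ∀ i, ext y i = ζ * (h i + ext y (i + 1))) (j k : ℕ) :
    ext y j = (∑ i ∈ Finset.range k, ζ ^ (i + 1) * h (j + i)) + ζ ^ k * ext y (j + k) := by
  induction k with
  | zero => simp
  | succ k ih =>
    rw [ih, Finset.sum_range_succ, H (j + k)]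
    have : j + k + 1 = j + (k + 1) := by ring
    rw [this]
    ring

/-- The resolvent estimate, as a lower bound for `z - T`. -/
lemma lower (m : ℕ) (hm : 1 ≤ m) (z : ℂ) (hz : 1 < ‖z‖) (v : V m) :
    ‖z - 1‖ * ‖v‖ ≤ 12 * (m : ℝ) ^ 2 * ‖z • v - op m v‖ := by
  obtain ⟨a, y, b⟩ := v
  have hm1 : (1 : ℝ) ≤ m := by exact_mod_cast hm
  have hz0 : z ≠ 0 := by
    rintro rfl
    simp at hz
    linarith
  obtain ⟨v', hv'⟩ : ∃ v' : V m, v' = z • ((a, y, b) : V m) - op m (a, y, b) := ⟨_, rfl⟩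
  rw [← hv']
  obtain ⟨a', y', b'⟩ := v'
  rw [op_apply] at hv'
  simp only [Prod.smul_mk, Prod.mk_sub_mk, Prod.mk.injEq, sub_zero] at hv'
  obtain ⟨ha, hy, hb⟩ := hv'
  set D : ℝ := ‖((a', y', b') : V m)‖ with hD
  have hDa : ‖a'‖ ≤ D := norm_fst_le ((a', y', b') : V m)
  have hDy : ‖y'‖ ≤ D := (norm_fst_le ((y', b') : (Fin (2 * m + 1) → ℂ) × ℂ)).trans
    (norm_snd_le ((a', y', b') : V m))
  have hDb : ‖b'‖ ≤ D := (norm_snd_le ((y', b') : (Fin (2 * m + 1) → ℂ) × ℂ)).trans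
    (norm_snd_le ((a', y', b') : V m))
  have hD0 : 0 ≤ D := norm_nonneg _
  set ζ : ℂ := z⁻¹ with hζ
  have hζ1 : ‖ζ‖ ≤ 1 := by
    rw [hζ, norm_inv]
    exact inv_le_one_of_one_le₀ hz.le
  have hzζ : z * ζ = 1 := mul_inv_cancel₀ hz0
  have hz1ζ : ‖z - 1‖ * ‖ζ‖ ≤ 2 := by
    rw [← norm_mul]
    have : (z - 1) * ζ = 1 - ζ := by rw [sub_mul, hzζ, one_mul]
    rw [this]
    refine (norm_sub_le _ _).trans ?_
    rw [norm_one]
    linarith
  have ha' : a = ζ * a' := by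
    rw [ha, smul_eq_mul, ← mul_assoc, mul_comm ζ z, hzζ, one_mul]
  have hna : ‖a‖ ≤ D := by
    rw [ha', norm_mul]
    calc ‖ζ‖ * ‖a'‖ ≤ 1 * D := by gcongr
      _ = D := one_mul D
  -- the recursion
  have H : ∀ i, ext y i = ζ * ((ext y' i + (m : ℂ) * a * G m i) + ext y (i + 1)) := by
    intro i
    by_cases hi : i < 2 * m + 1
    · have e := congrFun hy ⟨i, hi⟩
      simp only [Pi.sub_apply, Pi.smul_apply, smul_eq_mul] at e
      have e1 : ext y i = y ⟨i, hi⟩ := ext_of_lt y ⟨i, hi⟩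
      have e2 : ext y' i = y' ⟨i, hi⟩ := ext_of_lt y' ⟨i, hi⟩
      have e3 : G m i = ((m : ℂ) - (i : ℂ))⁻¹ := by unfold G; rw [if_pos hi]
      rw [e1, e2, e3, e]
      have : ζ * (z * y ⟨i, hi⟩ - ((m : ℂ) * a * ((m : ℂ) - (i : ℂ))⁻¹ + ext y (i + 1)) +
          (m : ℂ) * a * ((m : ℂ) - (i : ℂ))⁻¹ + ext y (i + 1)) = (z * ζ) * y ⟨i, hi⟩ := by ring
      rw [this, hzζ, one_mul]
    · push Not at hi
      rw [ext_of_ge y hi, ext_of_ge y' hi, ext_of_ge y (by omega : 2 * m + 1 ≤ i + 1)]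
      have : G m i = 0 := by unfold G; rw [if_neg (by omega)]
      rw [this]
      ring
  set h : ℕ → ℂ := fun i => ext y' i + (m : ℂ) * a * G m i with hh
  have hhb : ∀ i, ‖h i‖ ≤ (m + 1) * D := by
    intro i
    calc ‖h i‖ ≤ ‖ext y' i‖ + ‖(m : ℂ) * a * G m i‖ := norm_add_le _ _
      _ ≤ D + m * D * 1 := by
          gcongr
          · exact (norm_ext_le y' i).trans hDy
          · rw [norm_mul, norm_mul, Complex.norm_natCast]
            have := norm_G_le m i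
            gcongr
      _ = (m + 1) * D := by ring
  have hU : ∀ j, ext y j = ∑ i ∈ Finset.range (2 * m + 1), ζ ^ (i + 1) * h (j + i) := by
    intro j
    have := unroll y h ζ H j (2 * m + 1)
    rw [ext_of_ge y (by omega : 2 * m + 1 ≤ j + (2 * m + 1)), mul_zero, add_zero] at this
    exact this
  -- the first component
  have p1 : ‖z - 1‖ * ‖a‖ ≤ 2 * D := by
    rw [ha', norm_mul, ← mul_assoc]
    gcongr
  -- the middle components
  have p2 : ∀ j : Fin (2 * m + 1), ‖z - 1‖ * ‖y j‖ ≤ 12 * (m : ℝ) ^ 2 * D := by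
    intro j
    rw [← ext_of_lt y j, hU]
    have e : ∑ i ∈ Finset.range (2 * m + 1), ζ ^ (i + 1) * h ((j : ℕ) + i) =
        ζ * ∑ i ∈ Finset.range (2 * m + 1), ζ ^ i * h ((j : ℕ) + i) := by
      rw [Finset.mul_sum]
      refine Finset.sum_congr rfl fun i _ => ?_
      rw [pow_succ]; ring
    rw [e, norm_mul, ← mul_assoc]
    have s : ‖∑ i ∈ Finset.range (2 * m + 1), ζ ^ i * h ((j : ℕ) + i)‖ ≤ (2 * m + 1) * ((m + 1) * D) := by
      refine (norm_sum_le _ _).trans ?_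
      calc ∑ i ∈ Finset.range (2 * m + 1), ‖ζ ^ i * h ((j : ℕ) + i)‖
          ≤ ∑ i ∈ Finset.range (2 * m + 1), ((m : ℝ) + 1) * D := by
            refine Finset.sum_le_sum fun i _ => ?_
            rw [norm_mul, norm_pow]
            calc ‖ζ‖ ^ i * ‖h ((j : ℕ) + i)‖ ≤ 1 * (((m : ℝ) + 1) * D) := by
                  gcongr
                  · exact pow_le_one₀ (norm_nonneg ζ) hζ1
                  · exact hhb _
              _ = _ := one_mul _
        _ = (2 * m + 1) * ((m + 1) * D) := by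
            rw [Finset.sum_const, Finset.card_range, nsmul_eq_mul]
            push_cast
            ring
    calc ‖z - 1‖ * ‖ζ‖ * ‖∑ i ∈ Finset.range (2 * m + 1), ζ ^ i * h ((j : ℕ) + i)‖
        ≤ 2 * ((2 * m + 1) * ((m + 1) * D)) := by gcongr
      _ ≤ 12 * (m : ℝ) ^ 2 * D := by
          have : 2 * ((2 * (m : ℝ) + 1) * ((m + 1))) ≤ 12 * (m : ℝ) ^ 2 := by nlinarith
          calc 2 * ((2 * (m : ℝ) + 1) * ((m + 1) * D)) = (2 * ((2 * (m : ℝ) + 1) * ((m + 1)))) * D := by ring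
            _ ≤ _ := by gcongr
  -- the last component
  have p3 : ‖z - 1‖ * ‖b‖ ≤ 12 * (m : ℝ) ^ 2 * D := by
    have e0 : (z - 1) * b = b' + (m : ℂ) * ext y 0 := by
      rw [hb, smul_eq_mul]; ring
    have e1 : (m : ℂ) * ext y 0 = (m : ℂ) * (∑ i ∈ Finset.range (2 * m + 1), ζ ^ (i + 1) * ext y' i) +
        (m : ℂ) ^ 2 * a * (ζ * ∑ i ∈ Finset.range (2 * m + 1), ((m : ℂ) - (i : ℂ))⁻¹ * ζ ^ i) := by
      rw [hU 0, hh, Finset.mul_sum, Finset.mul_sum, Finset.mul_sum, Finset.mul_sum, ← Finset.sum_add_distrib]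
      refine Finset.sum_congr rfl fun i hi => ?_
      have hi' := Finset.mem_range.mp hi
      have e3 : G m i = ((m : ℂ) - (i : ℂ))⁻¹ := by unfold G; rw [if_pos hi']
      simp only [zero_add]
      rw [e3]
      ring
    rw [← norm_mul, e0, e1]
    have q1 : ‖∑ i ∈ Finset.range (2 * m + 1), ζ ^ (i + 1) * ext y' i‖ ≤ (2 * m + 1) * D := by
      refine (norm_sum_le _ _).trans ?_
      calc ∑ i ∈ Finset.range (2 * m + 1), ‖ζ ^ (i + 1) * ext y' i‖
          ≤ ∑ i ∈ Finset.range (2 * m + 1), D := by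
            refine Finset.sum_le_sum fun i _ => ?_
            rw [norm_mul, norm_pow]
            calc ‖ζ‖ ^ (i + 1) * ‖ext y' i‖ ≤ 1 * D := by
                  gcongr
                  · exact pow_le_one₀ (norm_nonneg ζ) hζ1
                  · exact (norm_ext_le y' i).trans hDy
              _ = _ := one_mul _
        _ = (2 * m + 1) * D := by
            rw [Finset.sum_const, Finset.card_range, nsmul_eq_mul]
            push_cast
            ring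
    have q2 := fejer_bound' ζ hζ1 m
    calc ‖b' + ((m : ℂ) * (∑ i ∈ Finset.range (2 * m + 1), ζ ^ (i + 1) * ext y' i) +
        (m : ℂ) ^ 2 * a * (ζ * ∑ i ∈ Finset.range (2 * m + 1), ((m : ℂ) - (i : ℂ))⁻¹ * ζ ^ i))‖
        ≤ ‖b'‖ + (‖(m : ℂ) * (∑ i ∈ Finset.range (2 * m + 1), ζ ^ (i + 1) * ext y' i)‖ +
          ‖(m : ℂ) ^ 2 * a * (ζ * ∑ i ∈ Finset.range (2 * m + 1), ((m : ℂ) - (i : ℂ))⁻¹ * ζ ^ i)‖) :=
          (norm_add_le _ _).trans (add_le_add le_rfl (norm_add_le _ _))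
      _ ≤ D + (m * ((2 * m + 1) * D) + (m : ℝ) ^ 2 * D * (1 * 6)) := by
          gcongr
          · rw [norm_mul, Complex.norm_natCast]
            gcongr
          · rw [norm_mul, norm_mul, norm_mul, norm_pow, Complex.norm_natCast]
            gcongr
      _ ≤ 12 * (m : ℝ) ^ 2 * D := by
          have : 1 + (m * ((2 * (m : ℝ) + 1)) + (m : ℝ) ^ 2 * 6) ≤ 12 * (m : ℝ) ^ 2 := by nlinarith
          calc D + (m * ((2 * m + 1) * D) + (m : ℝ) ^ 2 * D * (1 * 6)) =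
              (1 + (m * ((2 * (m : ℝ) + 1)) + (m : ℝ) ^ 2 * 6)) * D := by ring
            _ ≤ _ := by gcongr
  -- assemble
  have hz1 : 0 ≤ ‖z - 1‖ := norm_nonneg _
  have hR : 0 ≤ 12 * (m : ℝ) ^ 2 * D := by positivity
  have p1' : ‖z - 1‖ * ‖a‖ ≤ 12 * (m : ℝ) ^ 2 * D := by
    refine p1.trans ?_
    have : (2 : ℝ) ≤ 12 * (m : ℝ) ^ 2 := by nlinarith
    gcongr
  have p2' : ‖z - 1‖ * ‖y‖ ≤ 12 * (m : ℝ) ^ 2 * D := by
    have : ‖(z - 1) • y‖ ≤ 12 * (m : ℝ) ^ 2 * D := by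
      rw [pi_norm_le_iff_of_nonneg hR]
      intro j
      rw [Pi.smul_apply, norm_smul]
      exact p2 j
    rwa [norm_smul] at this
  rw [Prod.norm_mk, Prod.norm_mk]
  rcases le_total ‖a‖ (max ‖y‖ ‖b‖) with h1 | h1
  · rw [max_eq_right h1]
    rcases le_total ‖y‖ ‖b‖ with h2 | h2
    · rw [max_eq_right h2]; exact p3
    · rw [max_eq_left h2]; exact p2'
  · rw [max_eq_left h1]; exact p1'


lemma isUnit_sub (m : ℕ) (hm : 1 ≤ m) (z : ℂ) (hz : 1 < ‖z‖) :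
    IsUnit (algebraMap ℂ (V m →L[ℂ] V m) z - op m) := by
  rw [ContinuousLinearMap.isUnit_iff_bijective]
  have hz1 : z ≠ 1 := by
    rintro rfl
    simp at hz
  have hpos : 0 < ‖z - 1‖ := norm_pos_iff.mpr (sub_ne_zero.mpr hz1)
  have happ : ∀ v : V m, (algebraMap ℂ (V m →L[ℂ] V m) z - op m) v = z • v - op m v := by
    intro v
    rw [Algebra.algebraMap_eq_smul_one]
    rfl
  have hinj : Function.Injective (algebraMap ℂ (V m →L[ℂ] V m) z - op m) := by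
    rw [injective_iff_map_eq_zero]
    intro v hv
    rw [happ] at hv
    have := lower m hm z hz v
    rw [hv, norm_zero, mul_zero] at this
    have h0 : ‖v‖ ≤ 0 := by
      by_contra hcon
      push Not at hcon
      have := mul_pos hpos hcon
      linarith
    exact norm_le_zero_iff.mp h0
  refine ⟨hinj, ?_⟩
  have : Function.Surjective ((algebraMap ℂ (V m →L[ℂ] V m) z - op m : V m →L[ℂ] V m) : V m →ₗ[ℂ] V m) :=
    LinearMap.injective_iff_surjective.mp hinj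
  exact this

lemma resolvent_bound (m : ℕ) (hm : 1 ≤ m) (z : ℂ) (hz : 1 < ‖z‖) :
    ‖(z - 1) • resolvent (op m) z‖ ≤ 12 * (m : ℝ) ^ 2 := by
  obtain ⟨u, hu⟩ := isUnit_sub m hm z hz
  have hres : resolvent (op m) z = ((u⁻¹ : (V m →L[ℂ] V m)ˣ) : V m →L[ℂ] V m) := by
    unfold resolvent
    rw [← hu, Ring.inverse_unit]
  refine ContinuousLinearMap.opNorm_le_bound _ (by positivity) fun w => ?_
  change ‖(z - 1) • (resolvent (op m) z) w‖ ≤ _
  rw [norm_smul, hres]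
  have h1 := lower m hm z hz (((u⁻¹ : (V m →L[ℂ] V m)ˣ) : V m →L[ℂ] V m) w)
  have h2 : z • (((u⁻¹ : (V m →L[ℂ] V m)ˣ) : V m →L[ℂ] V m) w) -
      op m (((u⁻¹ : (V m →L[ℂ] V m)ˣ) : V m →L[ℂ] V m) w) = w := by
    have h3 : (algebraMap ℂ (V m →L[ℂ] V m) z - op m) (((u⁻¹ : (V m →L[ℂ] V m)ˣ) : V m →L[ℂ] V m) w) =
      z • (((u⁻¹ : (V m →L[ℂ] V m)ˣ) : V m →L[ℂ] V m) w) -
      op m (((u⁻¹ : (V m →L[ℂ] V m)ˣ) : V m →L[ℂ] V m) w) := by
      rw [Algebra.algebraMap_eq_smul_one]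
      rfl
    rw [← h3, ← hu]
    change ((u : V m →L[ℂ] V m) * ((u⁻¹ : (V m →L[ℂ] V m)ˣ) : V m →L[ℂ] V m)) w = w
    rw [Units.mul_inv]
    rfl
  rw [h2] at h1
  exact h1

end Pool.Agent.Lib.MP_600649_an
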